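import Pool.Agent.Y425.BF6.Cor

set_option autoImplicit false

/-!
Flows with two thirds of the coordinates equal to one in all bridgeless graphs of cutwidth at most
six.

A finite graph, loops and parallel edges allowed, has the vertex set `V` and the edge set `E`; the
ends of the edge `e` are `s e` and `t e`. The cutwidth is at most six if the vertices can be placed
on a line such that at most six edges pass over each gap.
-/

open Finset

namespace Pool.Agent.Results.MP_65a8f1_co.CutwidthSix

/-- `φ` is a `Y_p`-flow: each of its `3 * p` coordinates is a flow with values in the integers modulo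
two (a loop counts twice) and at each edge exactly `2 * p` coordinates are one -/
def IsYFlow {V E : Type} [DecidableEq V] [Fintype E] (s t : E → V) (p : ℕ)
    (φ : Fin (3 * p) → E → ZMod 2) : Prop :=
  (∀ i v, ∑ e, ((if s e = v then φ i e else 0) + (if t e = v then φ i e else 0)) = 0) ∧
    ∀ e, (univ.filter (fun i => φ i e = 1)).card = 2 * p

/-- Let `G` be a finite graph such that no set of vertices is left by exactly one edge (no bridges)
and that the vertices can be numbered injectively by natural numbers such that for each `n` at most
six edges join a vertex with number smaller than `n` to a vertex with number at least `n`. Then `G`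
has a `Y_p`-flow for every even number `p`; in particular for `p = 2`. -/
theorem result (V E : Type) [Fintype V] [DecidableEq V] [Fintype E] [DecidableEq E] (s t : E → V)
    (hbridge : ∀ Z : Finset V, (univ.filter fun e => ¬ (s e ∈ Z ↔ t e ∈ Z)).card ≠ 1)
    (hwidth : ∃ f : V → ℕ, Function.Injective f ∧
      ∀ n, (univ.filter fun e => ¬ (f (s e) < n ↔ f (t e) < n)).card ≤ 6)
    (p : ℕ) (hp : Even p) : ∃ φ : Fin (3 * p) → E → ZMod 2, IsYFlow s t p φ := by
  obtain ⟨q, rfl⟩ := hp
  obtain ⟨C, hC, h4⟩ := Pool.Agent.Y425.BF6.Cor.mult
    (Pool.Agent.Y425.BF6.Cor.six_cw s t hbridge hwidth) q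
  have hq : 3 * (q + q) = 6 * q := by ring
  refine ⟨fun i e => if e ∈ C (Fin.cast hq i) then 1 else 0, fun i v => ?_, fun e => ?_⟩
  · have h := hC (Fin.cast hq i) v
    rw [← ZMod.natCast_eq_zero_iff_even] at h
    refine Eq.trans ?_ h
    push_cast
    rw [← sum_filter_add_sum_filter_not univ (fun e => e ∈ C (Fin.cast hq i))]
    have h1 : univ.filter (fun e => e ∈ C (Fin.cast hq i)) = C (Fin.cast hq i) := by
      ext e; simp
    rw [h1, sum_eq_zero (s := univ.filter (fun e => e ∉ C (Fin.cast hq i))), add_zero]
    · refine sum_congr rfl fun e he => ?_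
      rw [if_pos he]
    · intro e he
      rw [mem_filter] at he
      rw [if_neg he.2, ite_self, ite_self, add_zero]
  · have h1 : (univ.filter (fun i : Fin (3 * (q + q)) =>
        (if e ∈ C (Fin.cast hq i) then (1 : ZMod 2) else 0) = 1)).card =
        (univ.filter (fun i => e ∈ C i)).card := by
      refine card_bij (fun i _ => Fin.cast hq i) ?_ ?_ ?_
      · intro i hi
        rw [mem_filter] at hi ⊢
        refine ⟨mem_univ _, ?_⟩
        by_contra hcon
        have h2 := hi.2
        rw [if_neg hcon] at h2
        exact absurd h2 (by decide)
      · intro i _ j _ hij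
        exact Fin.cast_injective hq hij
      · intro i hi
        rw [mem_filter] at hi
        refine ⟨Fin.cast hq.symm i, ?_, ?_⟩
        · rw [mem_filter]
          refine ⟨mem_univ _, ?_⟩
          have h3 : Fin.cast hq (Fin.cast hq.symm i) = i := by
            ext; rfl
          rw [h3, if_pos hi.2]
        · ext; rfl
    rw [h1, h4 e]
    ring

end Pool.Agent.Results.MP_65a8f1_co.CutwidthSix
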